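import Pool.Agent.H13DY.Stm

/-! # No real points of exact period four -/

set_option autoImplicit false

namespace Pool.Agent.Q111.DY

open Pool.Agent.H13DY

theorem core {a b c : ℝ} (h1 : (a ^ 2 + c) ^ 2 + c = b) (h2 : (b ^ 2 + c) ^ 2 + c = a)
    (hab : a ≠ b) (hs0 : 0 < a + b) (hc : -5 / 4 < c) : False := by
  obtain ⟨s, hs⟩ : ∃ s, s = a + b := ⟨_, rfl⟩
  obtain ⟨t, ht⟩ : ∃ t, t = (a ^ 2 + c) + (b ^ 2 + c) := ⟨_, rfl⟩
  have hst : s * t = -1 := by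
    have h3 : (a - b) * (s * t + 1) = 0 := by
      rw [hs, ht]
      linear_combination h1 - h2
    have h4 := (mul_eq_zero.1 h3).resolve_left (sub_ne_zero.2 hab)
    linarith
  have hR2 : s = t ^ 2 - 2 * ((a * b) ^ 2 + c * t - c ^ 2) + 2 * c := by
    rw [hs, ht]
    linear_combination - h1 - h2
  have hE : s ^ 6 + 4 * s ^ 3 - 1 - 4 * c * s ^ 2 * (1 - s ^ 2) = 0 := by
    have e : 2 * (a * b) = s ^ 2 + 2 * c - t := by
      rw [hs, ht]
      ring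
    have e2 : 4 * (a * b) ^ 2 = (s ^ 2 + 2 * c - t) ^ 2 := by
      rw [← e]
      ring
    linear_combination 2 * s ^ 2 * hR2 + (s * t - 1 + 2 * s ^ 3) * hst - s ^ 2 * e2
  have hD : 0 < - s ^ 2 - 4 * c + 2 * t := by
    have h3 : - s ^ 2 - 4 * c + 2 * t = (a - b) ^ 2 := by
      rw [hs, ht]
      ring
    rw [h3]
    exact (sq_nonneg _).lt_of_ne (pow_ne_zero 2 (sub_ne_zero.2 hab)).symm
  have hs1 : 0 < s := hs ▸ hs0
  have hq : 0 < s ^ 4 - 2 * s ^ 3 + 2 * s + 1 := by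
    nlinarith [sq_nonneg (s ^ 2 - s - 1), pow_pos hs1 2]
  have hfac : s ^ 6 + 4 * s ^ 3 - 1 + 5 * s ^ 2 * (1 - s ^ 2) =
      (s ^ 2 + 2 * s - 1) * (s ^ 4 - 2 * s ^ 3 + 2 * s + 1) := by ring
  rcases lt_trichotomy s 1 with h | h | h
  · have h1s : 0 < 1 - s ^ 2 := by nlinarith
    have hA : 0 < s ^ 2 * (1 - s ^ 2) := mul_pos (pow_pos hs1 2) h1s
    have h5 : 0 < (s ^ 2 + 2 * s - 1) * (s ^ 4 - 2 * s ^ 3 + 2 * s + 1) := by
      rw [← hfac]
      have h6 : 0 < (4 * c + 5) * (s ^ 2 * (1 - s ^ 2)) := mul_pos (by linarith) hA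
      nlinarith
    have h7 : 0 < s ^ 2 + 2 * s - 1 := (mul_pos_iff_of_pos_right hq).1 h5
    have h8 : 0 < (s * (- s ^ 2 - 4 * c + 2 * t)) * (s * (1 - s ^ 2)) :=
      mul_pos (mul_pos hs1 hD) (mul_pos hs1 h1s)
    have h9 : (s * (- s ^ 2 - 4 * c + 2 * t)) * (s * (1 - s ^ 2)) =
        - ((s ^ 2 + 2 * s - 1) * (s ^ 2 + 1)) := by
      linear_combination hE + 2 * s * (1 - s ^ 2) * hst
    rw [h9] at h8
    have h10 : 0 < (s ^ 2 + 2 * s - 1) * (s ^ 2 + 1) := mul_pos h7 (by positivity)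
    linarith
  · rw [h] at hE
    norm_num at hE
  · have h1s : 0 < s ^ 2 - 1 := by nlinarith
    have hA : 0 < s ^ 2 * (s ^ 2 - 1) := mul_pos (pow_pos hs1 2) h1s
    have h5 : 0 < (s ^ 2 + 2 * s - 1) * (s ^ 4 - 2 * s ^ 3 + 2 * s + 1) :=
      mul_pos (by nlinarith) hq
    rw [← hfac] at h5
    have h6 : 0 < (4 * c + 5) * (s ^ 2 * (s ^ 2 - 1)) := mul_pos (by linarith) hA
    nlinarith

theorem r4 : S_R4 := by
  intro c hc y h
  have e4 : (qm c)^[4] y = (((y ^ 2 + c) ^ 2 + c) ^ 2 + c) ^ 2 + c := rfl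
  have e2 : (qm c)^[2] y = (y ^ 2 + c) ^ 2 + c := rfl
  rw [e4] at h
  rw [e2]
  by_contra hne
  obtain ⟨b, hb⟩ : ∃ b, b = (y ^ 2 + c) ^ 2 + c := ⟨_, rfl⟩
  rw [← hb] at h hne
  have hab : y ≠ b := fun h0 => hne h0.symm
  rcases lt_trichotomy (y + b) 0 with h3 | h3 | h3
  · refine core (a := y ^ 2 + c) (b := b ^ 2 + c) (c := c) ?_ ?_ ?_ ?_ hc
    · rw [← hb]
    · rw [h]
    · intro h4
      have h5 : (y - b) * (y + b) = 0 := by linear_combination h4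
      rcases mul_eq_zero.1 h5 with h6 | h6
      · exact hab (sub_eq_zero.1 h6)
      · exact h3.ne h6
    · have h5 : (y - b) * ((y + b) * (y ^ 2 + c + (b ^ 2 + c)) + 1) = 0 := by
        linear_combination -hb - h
      have h6 := (mul_eq_zero.1 h5).resolve_left (sub_ne_zero.2 hab)
      by_contra hcon
      push Not at hcon
      have h7 : 0 ≤ (y + b) * (y ^ 2 + c + (b ^ 2 + c)) := mul_nonneg_of_nonpos_of_nonpos h3.le hcon
      linarith
  · have h5 : (y - b) * ((y + b) * (y ^ 2 + c + (b ^ 2 + c)) + 1) = 0 := by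
      linear_combination -hb - h
    rw [h3, zero_mul, zero_add, mul_one] at h5
    exact hab (sub_eq_zero.1 h5)
  · exact core hb.symm h hab h3 hc

end Pool.Agent.Q111.DY
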